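import Mathlib
import Pool.Agent.Run7.h643.Disk

set_option autoImplicit false

namespace Pool.Agent.Results.MP_bac701_al.OneSet

/-- The closed unit disk of the Euclidean plane. -/
def Disk : Type := ↥(Metric.closedBall (0 : EuclideanSpace ℝ (Fin 2)) 1)

/-- The closed unit disk carries the subspace topology of the Euclidean plane. -/
instance instTopDisk : TopologicalSpace Disk := instTopologicalSpaceSubtype

/-- `f` fixes every point of the boundary circle, that is, every point of Euclidean norm `1`. -/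
def FixesBoundary (f : Disk ≃ₜ Disk) : Prop :=
  ∀ x : Disk, ‖(x.1 : EuclideanSpace ℝ (Fin 2))‖ = 1 → f x = x

/-- There is a finite nonempty set `A` of homeomorphisms of the closed disk fixing the boundary
circle pointwise such that every product `a * b` (composition) of two elements of `A` equals
`a' * b'` for a different ordered pair `(a', b')` of elements of `A`. -/
theorem result :
    ∃ A : Finset (Disk ≃ₜ Disk), A.Nonempty ∧ (∀ f ∈ A, FixesBoundary f) ∧
      ∀ a ∈ A, ∀ b ∈ A, ∃ a' ∈ A, ∃ b' ∈ A, (a', b') ≠ (a, b) ∧ a' * b' = a * b := by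
  classical
  obtain ⟨S, T, ⟨s, hs⟩, ⟨t, ht⟩, hno⟩ := Run7.h643.plane_no_unique
  -- the embedding
  let e : Run7.h643.Gam → (Disk ≃ₜ Disk) := fun g => Run7.h643.emb g
  have he_fix : ∀ g, FixesBoundary (e g) := fun g x hx => Run7.h643.emb_bdry g x hx
  have he_mul : ∀ g h, e (g * h) = e g * e h := fun g h => Run7.h643.emb_mul g h
  have he_inj : ∀ g h, e g = e h → g = h := fun g h q => Run7.h643.emb_inj q
  -- the set `T * S`
  refine ⟨(T ×ˢ S).image (fun p => e (p.1 * p.2)),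
    ⟨e (t * s), Finset.mem_image.2 ⟨(t, s), Finset.mem_product.2 ⟨ht, hs⟩, rfl⟩⟩, ?_, ?_⟩
  · intro f hf
    obtain ⟨p, -, rfl⟩ := Finset.mem_image.1 hf
    exact he_fix _
  intro a ha b hb
  obtain ⟨⟨t₁, s₁⟩, h₁, rfl⟩ := Finset.mem_image.1 ha
  obtain ⟨⟨t₂, s₂⟩, h₂, rfl⟩ := Finset.mem_image.1 hb
  obtain ⟨ht₁, hs₁⟩ := Finset.mem_product.1 h₁
  obtain ⟨ht₂, hs₂⟩ := Finset.mem_product.1 h₂
  have h := hno s₁ hs₁ t₂ ht₂
  unfold UniqueMul at h
  push Not at h
  obtain ⟨s', t', hs', ht', hprod, hne⟩ := h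
  refine ⟨e (t₁ * s'), Finset.mem_image.2 ⟨(t₁, s'), Finset.mem_product.2 ⟨ht₁, hs'⟩, rfl⟩,
    e (t' * s₂), Finset.mem_image.2 ⟨(t', s₂), Finset.mem_product.2 ⟨ht', hs₂⟩, rfl⟩, ?_, ?_⟩
  · intro q
    rw [Prod.mk.injEq] at q
    exact hne (mul_left_cancel (he_inj _ _ q.1)) (mul_right_cancel (he_inj _ _ q.2))
  · rw [← he_mul, ← he_mul]
    congr 1
    calc t₁ * s' * (t' * s₂) = t₁ * (s' * t') * s₂ := by group
      _ = t₁ * (s₁ * t₂) * s₂ := by rw [hprod]
      _ = t₁ * s₁ * (t₂ * s₂) := by group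

end Pool.Agent.Results.MP_bac701_al.OneSet
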